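import Pool.Agent.W223.VD.Stms
import Pool.Agent.W669.VA1a
import Pool.Agent.W669.VA1b

/-!
FC1: a small generator of a number field (subtask VD-FC1).
-/

set_option autoImplicit false

namespace Pool.Agent.W32.VD

open Module NumberField IntermediateField Polynomial

theorem gen_top (n : ℕ) (hn : 1 ≤ n) (K : Type) [Field K] [NumberField K] (hK : finrank ℚ K = n)
    (T : ℝ) (hT : T = 2 * 6 ^ n * |(NumberField.discr K : ℝ)| ^ (1 / (2 * (((n + 1) / 2 : ℕ) : ℝ)))) :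
    1 ≤ T ∧
    IntermediateField.adjoin ℚ ((fun a : 𝓞 K => (a : K)) '' {a | ∀ σ : K →+* ℂ, ‖σ a‖ < T}) = ⊤ := by
  set D : ℝ := |(NumberField.discr K : ℝ)| with hD
  have hD1 : 1 ≤ D := by
    have h0 : NumberField.discr K ≠ 0 := NumberField.discr_ne_zero K
    have : (1 : ℤ) ≤ |NumberField.discr K| := Int.one_le_abs h0
    have h : ((1 : ℤ) : ℝ) ≤ ((|NumberField.discr K| : ℤ) : ℝ) := Int.cast_le.mpr this
    rw [Int.cast_abs] at h
    simpa using h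
  have hD0 : 0 < D := lt_of_lt_of_le one_pos hD1
  set h : ℕ := (n + 1) / 2 with hh
  have hh1 : 1 ≤ h := by omega
  have hhR : (1 : ℝ) ≤ h := by exact_mod_cast hh1
  have hDh : 1 ≤ D ^ (1 / (2 * (h : ℝ))) := Real.one_le_rpow hD1 (by positivity)
  have h6 : (1 : ℝ) ≤ 6 ^ n := one_le_pow₀ (by norm_num)
  have hT1 : 1 ≤ T := by
    rw [hT]
    nlinarith
  have hT0 : 0 < T := lt_of_lt_of_le one_pos hT1
  refine ⟨hT1, ?_⟩
  by_contra hcon
  set F : IntermediateField ℚ K :=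
    IntermediateField.adjoin ℚ ((fun a : 𝓞 K => (a : K)) '' {a | ∀ σ : K →+* ℂ, ‖σ a‖ < T}) with hF
  have h1 : finrank ℚ F * finrank F K = n := by
    rw [← hK]
    exact Module.finrank_mul_finrank ℚ F K
  have h2 : finrank F K ≠ 1 := by
    intro h3
    apply hcon
    apply IntermediateField.eq_of_le_of_finrank_eq' le_top
    rw [h3, IntermediateField.finrank_top]
  have h3 : 0 < finrank F K := finrank_pos
  have h4 : finrank ℚ F ≤ n - h := by
    have h5 : finrank ℚ F * 2 ≤ n := by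
      rw [← h1]
      exact Nat.mul_le_mul_left _ (by omega)
    omega
  have e1 := Pool.Agent.W669.VA1a.taskA1a K T hT0
  have e2 := Pool.Agent.W669.VA1b.taskA1b K T hT1 (Subalgebra.toSubmodule F.toSubalgebra)
    (fun a ha => IntermediateField.subset_adjoin ℚ _ ⟨a, ha, rfl⟩)
  have e2' : (finrank ℚ (Subalgebra.toSubmodule F.toSubalgebra)) = finrank ℚ F := rfl
  rw [e2'] at e2
  rw [hK] at e1
  have e3 : T ^ n ≤ 2 ^ n * Real.sqrt D * (3 * T) ^ (n - h) := by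
    refine e1.trans (mul_le_mul_of_nonneg_left (e2.trans ?_) (by positivity))
    exact pow_le_pow_right₀ (by linarith) h4
  have e4 : T ^ h * T ^ (n - h) ≤ (2 ^ n * 3 ^ (n - h) * Real.sqrt D) * T ^ (n - h) := by
    rw [← pow_add, show h + (n - h) = n by omega]
    refine e3.trans (le_of_eq ?_)
    rw [mul_pow]
    ring
  have e5 : T ^ h ≤ 2 ^ n * 3 ^ (n - h) * Real.sqrt D := le_of_mul_le_mul_right e4 (by positivity)
  have e6 : T ^ h = (2 * 6 ^ n) ^ h * Real.sqrt D := by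
    rw [hT, mul_pow, ← Real.rpow_natCast (D ^ (1 / (2 * (h : ℝ)))) h, ← Real.rpow_mul hD0.le,
      Real.sqrt_eq_rpow]
    congr 2
    field_simp
  have e7 : (2 * 6 ^ n : ℝ) ≤ (2 * 6 ^ n) ^ h := le_self_pow₀ (by linarith) (by omega)
  have e8 : (2 ^ n * 3 ^ (n - h) : ℝ) ≤ 6 ^ n := by
    have : (3 : ℝ) ^ (n - h) ≤ 3 ^ n := pow_le_pow_right₀ (by norm_num) (by omega)
    calc (2 ^ n * 3 ^ (n - h) : ℝ) ≤ 2 ^ n * 3 ^ n := mul_le_mul_of_nonneg_left this (by positivity)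
      _ = 6 ^ n := by rw [← mul_pow]; norm_num
  have hs : 0 < Real.sqrt D := Real.sqrt_pos.2 hD0
  rw [e6] at e5
  have e9 : (2 * 6 ^ n : ℝ) ^ h ≤ 2 ^ n * 3 ^ (n - h) := le_of_mul_le_mul_right e5 hs
  linarith

theorem exists_fam (n : ℕ) (K : Type) [Field K] [NumberField K] (hK : finrank ℚ K = n)
    (A : Set (𝓞 K)) (hA : IntermediateField.adjoin ℚ ((fun a : 𝓞 K => (a : K)) '' A) = ⊤) :
    ∃ (j : ℕ) (a : Fin j → 𝓞 K), j ≤ n ∧ (∀ i, a i ∈ A) ∧
      ∀ φ ψ : K →ₐ[ℚ] ℂ, (∀ i, φ (a i) = ψ (a i)) → φ = ψ := by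
  classical
  obtain ⟨b, hb1, hb2, hb3⟩ := exists_linearIndependent ℚ ((fun a : 𝓞 K => (a : K)) '' A)
  have hfin : Finite b := hb3.finite
  have := Fintype.ofFinite b
  have hcard : Fintype.card b ≤ n := by
    rw [← hK]
    exact hb3.fintype_card_le_finrank
  let e : Fin (Fintype.card b) ≃ b := (Fintype.equivFin b).symm
  have hch : ∀ i, ∃ a : 𝓞 K, a ∈ A ∧ (a : K) = (e i : K) := by
    intro i
    obtain ⟨a, ha, hab⟩ := hb1 (e i).2
    exact ⟨a, ha, hab⟩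
  choose a ha1 ha2 using hch
  refine ⟨Fintype.card b, a, hcard, ha1, ?_⟩
  intro φ ψ hφ
  have h1 : ∀ x ∈ b, φ x = ψ x := by
    intro x hx
    have h2 := hφ (e.symm ⟨x, hx⟩)
    rw [ha2, Equiv.apply_symm_apply] at h2
    exact h2
  have h3 : ∀ x ∈ Submodule.span ℚ b, φ x = ψ x := by
    intro x hx
    induction hx using Submodule.span_induction with
    | mem x hx => exact h1 x hx
    | zero => rw [map_zero, map_zero]
    | add x y _ _ h4 h5 => rw [map_add, map_add, h4, h5]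
    | smul c x _ h4 => rw [Rat.smul_def, map_mul, map_mul, map_ratCast, map_ratCast, h4]
  rw [hb2] at h3
  have h4 : IntermediateField.adjoin ℚ ((fun a : 𝓞 K => (a : K)) '' A) ≤
      { AlgHom.equalizer φ ψ with
        inv_mem' := fun x hx => by
          show φ x⁻¹ = ψ x⁻¹
          have hx' : φ x = ψ x := hx
          rw [map_inv₀, map_inv₀, hx'] } := by
    rw [IntermediateField.adjoin_le_iff]
    intro x hx
    exact h3 x (Submodule.subset_span hx)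
  rw [hA] at h4
  ext x
  exact h4 (IntermediateField.mem_top (x := x))

theorem exists_t (n j : ℕ) (K : Type) [Field K] [NumberField K]
    (hK : finrank ℚ K = n) (a : Fin j → 𝓞 K) (hj : j ≤ n)
    (ha : ∀ φ ψ : K →ₐ[ℚ] ℂ, (∀ i, φ (a i) = ψ (a i)) → φ = ψ) :
    ∃ t : ℕ, t ≤ n ^ 3 ∧
      Function.Injective fun φ : K →ₐ[ℚ] ℂ => φ (∑ i : Fin j, ((t ^ (i : ℕ) : ℕ) : K) * (a i : K)) := by
  classical
  let P : (K →ₐ[ℚ] ℂ) × (K →ₐ[ℚ] ℂ) → ℂ[X] := fun q =>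
    ∑ i : Fin j, C (q.1 (a i : K) - q.2 (a i : K)) * X ^ (i : ℕ)
  have hPc : ∀ q (i : Fin j), (P q).coeff i = q.1 (a i : K) - q.2 (a i : K) := by
    intro q i
    simp only [P, finsetSum_coeff, coeff_C_mul, coeff_X_pow]
    rw [Finset.sum_eq_single i]
    · simp
    · intro b _ hb
      rw [if_neg (fun h => hb (Fin.ext h.symm)), mul_zero]
    · intro h
      exact absurd (Finset.mem_univ i) h
  have hP0 : ∀ q, q.1 ≠ q.2 → P q ≠ 0 := by
    intro q hq h0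
    apply hq
    apply ha
    intro i
    have h1 := hPc q i
    rw [h0, coeff_zero] at h1
    exact (sub_eq_zero.1 h1.symm)
  have hPd : ∀ q, (P q).natDegree ≤ n := by
    intro q
    apply natDegree_sum_le_of_forall_le
    intro i _
    refine (natDegree_C_mul_X_pow_le _ _).trans ?_
    have := i.2
    omega
  set S : Finset ((K →ₐ[ℚ] ℂ) × (K →ₐ[ℚ] ℂ)) := Finset.univ.filter fun q => q.1 ≠ q.2 with hS
  have hScard : S.card ≤ n * n := by
    refine (Finset.card_filter_le _ _).trans ?_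
    rw [Finset.card_univ, Fintype.card_prod, AlgHom.card, hK]
  set Q : ℂ[X] := ∏ q ∈ S, P q with hQ
  have hQ0 : Q ≠ 0 := by
    rw [hQ, Finset.prod_ne_zero_iff]
    intro q hq
    exact hP0 q (Finset.mem_filter.1 hq).2
  have hQd : Q.natDegree ≤ n ^ 3 := by
    refine (natDegree_prod_le _ _).trans ?_
    refine (Finset.sum_le_card_nsmul _ _ n fun q _ => hPd q).trans ?_
    rw [smul_eq_mul]
    calc S.card * n ≤ n * n * n := Nat.mul_le_mul_right _ hScard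
      _ = n ^ 3 := by ring
  obtain ⟨t, ht, htQ⟩ : ∃ t : ℕ, t ≤ n ^ 3 ∧ Q.eval (t : ℂ) ≠ 0 := by
    by_contra hcon
    push Not at hcon
    apply hQ0
    apply eq_zero_of_natDegree_lt_card_of_eval_eq_zero' Q
      ((Finset.range (n ^ 3 + 1)).image (fun t : ℕ => (t : ℂ)))
    · intro x hx
      obtain ⟨t, ht, rfl⟩ := Finset.mem_image.1 hx
      exact hcon t (Nat.lt_succ_iff.1 (Finset.mem_range.1 ht))
    · rw [Finset.card_image_of_injective _ Nat.cast_injective, Finset.card_range]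
      omega
  refine ⟨t, ht, ?_⟩
  intro φ ψ hφ
  by_contra hne
  rw [hQ, eval_prod, Finset.prod_ne_zero_iff] at htQ
  apply htQ (φ, ψ) (Finset.mem_filter.2 ⟨Finset.mem_univ _, hne⟩)
  have hφ' : φ (∑ i : Fin j, ((t ^ (i : ℕ) : ℕ) : K) * (a i : K)) =
    ψ (∑ i : Fin j, ((t ^ (i : ℕ) : ℕ) : K) * (a i : K)) := hφ
  rw [map_sum, map_sum] at hφ'
  simp only [P, eval_finsetSum, eval_mul, eval_C, eval_pow, eval_X]
  rw [← sub_eq_zero, ← Finset.sum_sub_distrib] at hφ'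
  rw [← hφ']
  apply Finset.sum_congr rfl
  intro i _
  rw [map_mul, map_mul, map_natCast, map_natCast]
  push_cast
  ring

theorem t : Pool.Agent.W223.VD.StmtFC1 := by
  intro n hn
  set M : ℝ := n * (n ^ 3 : ℝ) ^ n with hM
  have hn1 : (1 : ℝ) ≤ n := by exact_mod_cast hn
  have hn3 : (1 : ℝ) ≤ (n : ℝ) ^ 3 := one_le_pow₀ hn1
  have hn3n : (1 : ℝ) ≤ ((n : ℝ) ^ 3) ^ n := one_le_pow₀ hn3
  have hM1 : 1 ≤ M := by
    rw [hM]
    nlinarith
  have h6 : (1 : ℝ) ≤ 6 ^ n := one_le_pow₀ (by norm_num)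
  refine ⟨3 * M * (2 * 6 ^ n), by nlinarith, ?_⟩
  intro K _ _ hK
  obtain ⟨hT1, htop⟩ := gen_top n hn K hK _ rfl
  set T : ℝ := 2 * 6 ^ n * |(NumberField.discr K : ℝ)| ^ (1 / (2 * (((n + 1) / 2 : ℕ) : ℝ))) with hT
  obtain ⟨j, a, hj, haA, hinj⟩ := exists_fam n K hK _ htop
  obtain ⟨t, ht, htinj⟩ := exists_t n j K hK a hj hinj
  set α : 𝓞 K := ∑ i : Fin j, ((t ^ (i : ℕ) : ℕ) : 𝓞 K) * a i with hα
  have hαK : (α : K) = ∑ i : Fin j, ((t ^ (i : ℕ) : ℕ) : K) * (a i : K) := by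
    rw [hα]
    change algebraMap (𝓞 K) K (∑ i : Fin j, ((t ^ (i : ℕ) : ℕ) : 𝓞 K) * a i) = _
    rw [map_sum]
    apply Finset.sum_congr rfl
    intro i _
    rw [map_mul, map_natCast]
  have hαb : ∀ σ : K →+* ℂ, ‖σ (α : K)‖ ≤ M * T := by
    intro σ
    rw [hαK, map_sum]
    refine (norm_sum_le _ _).trans ?_
    have h1 : ∀ i : Fin j, ‖σ (((t ^ (i : ℕ) : ℕ) : K) * (a i : K))‖ ≤ ((n : ℝ) ^ 3) ^ n * T := by
      intro i
      rw [map_mul, map_natCast, norm_mul, Complex.norm_natCast]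
      have h2 : ‖σ (a i : K)‖ < T := haA i σ
      have h3 : ((t ^ (i : ℕ) : ℕ) : ℝ) ≤ ((n : ℝ) ^ 3) ^ n := by
        push_cast
        have h4 : (t : ℝ) ≤ (n : ℝ) ^ 3 := by exact_mod_cast ht
        calc (t : ℝ) ^ (i : ℕ) ≤ ((n : ℝ) ^ 3) ^ (i : ℕ) := pow_le_pow_left₀ (by positivity) h4 _
          _ ≤ ((n : ℝ) ^ 3) ^ n := pow_le_pow_right₀ hn3 (by have := i.2; omega)
      exact mul_le_mul h3 h2.le (norm_nonneg _) (by positivity)
    refine (Finset.sum_le_sum fun i _ => h1 i).trans ?_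
    rw [Finset.sum_const, Finset.card_univ, Fintype.card_fin, nsmul_eq_mul, hM, mul_assoc]
    have h5 : (j : ℝ) ≤ n := by exact_mod_cast hj
    exact mul_le_mul_of_nonneg_right h5 (by positivity)
  set s : ℤ := Algebra.trace ℤ (𝓞 K) α / (n : ℤ) with hs
  have htr : Algebra.trace ℤ (𝓞 K) (α - algebraMap ℤ (𝓞 K) s) =
      Algebra.trace ℤ (𝓞 K) α % (n : ℤ) := by
    rw [map_sub, Algebra.trace_algebraMap, RingOfIntegers.rank, hK, nsmul_eq_mul, hs, Int.emod_def]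
  have hn0 : (0 : ℤ) < n := by exact_mod_cast hn
  have htrC : ((Algebra.trace ℤ (𝓞 K) α : ℤ) : ℂ) = ∑ σ : K →ₐ[ℚ] ℂ, σ (α : K) := by
    have h1 := trace_eq_sum_embeddings (K := ℚ) (L := K) ℂ (x := (α : K))
    rw [← h1, ← Algebra.coe_trace_int]
    simp
  have htrb : |((Algebra.trace ℤ (𝓞 K) α : ℤ) : ℝ)| ≤ n * (M * T) := by
    have h1 : |((Algebra.trace ℤ (𝓞 K) α : ℤ) : ℝ)| = ‖((Algebra.trace ℤ (𝓞 K) α : ℤ) : ℂ)‖ := by
      rw [Complex.norm_intCast]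
    rw [h1, htrC]
    refine (norm_sum_le _ _).trans ?_
    have h2 : ∀ σ : K →ₐ[ℚ] ℂ, ‖σ (α : K)‖ ≤ M * T := fun σ => hαb (σ : K →+* ℂ)
    refine (Finset.sum_le_sum fun σ _ => h2 σ).trans ?_
    rw [Finset.sum_const, Finset.card_univ, AlgHom.card, hK, nsmul_eq_mul]
  have hMT : 1 ≤ M * T := by nlinarith
  have hsb : |(s : ℝ)| ≤ M * T + 1 := by
    have hnR : (0 : ℝ) < n := by linarith
    have h1 : Algebra.trace ℤ (𝓞 K) α = n * s + Algebra.trace ℤ (𝓞 K) α % (n : ℤ) :=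
      (Int.mul_ediv_add_emod _ _).symm
    have h2 := Int.emod_nonneg (Algebra.trace ℤ (𝓞 K) α) hn0.ne'
    have h3 := Int.emod_lt_of_pos (Algebra.trace ℤ (𝓞 K) α) hn0
    have h1' : ((Algebra.trace ℤ (𝓞 K) α : ℤ) : ℝ) =
        n * s + ((Algebra.trace ℤ (𝓞 K) α % (n : ℤ) : ℤ) : ℝ) := by exact_mod_cast h1
    have h2' : (0 : ℝ) ≤ ((Algebra.trace ℤ (𝓞 K) α % (n : ℤ) : ℤ) : ℝ) := by exact_mod_cast h2
    have h3' : ((Algebra.trace ℤ (𝓞 K) α % (n : ℤ) : ℤ) : ℝ) < n := by exact_mod_cast h3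
    rw [abs_le] at htrb ⊢
    constructor
    · have : (n : ℝ) * (-(M * T + 1)) ≤ n * s := by linarith [htrb.1]
      exact le_of_mul_le_mul_left this hnR
    · have : (n : ℝ) * s ≤ n * (M * T + 1) := by linarith [htrb.2]
      exact le_of_mul_le_mul_left this hnR
  have hβK : ((α - algebraMap ℤ (𝓞 K) s : 𝓞 K) : K) = (α : K) - (s : K) := by
    change algebraMap (𝓞 K) K (α - algebraMap ℤ (𝓞 K) s) = _
    rw [map_sub]
    simp
  refine ⟨α - algebraMap ℤ (𝓞 K) s, ?_, ?_, ?_, ?_⟩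
  · rw [Field.primitive_element_iff_algHom_eq_of_eval' ℚ ℂ (fun x => IsAlgClosed.splits _)]
    intro φ ψ hφ
    have hφ' : φ ((α - algebraMap ℤ (𝓞 K) s : 𝓞 K) : K) =
      ψ ((α - algebraMap ℤ (𝓞 K) s : 𝓞 K) : K) := hφ
    rw [hβK, map_sub, map_sub, map_intCast, map_intCast, sub_left_inj, hαK] at hφ'
    exact htinj hφ'
  · rw [htr]
    exact Int.emod_nonneg _ hn0.ne'
  · rw [htr]
    exact Int.emod_lt_of_pos _ hn0
  · intro σ
    rw [hβK, map_sub, map_intCast]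
    refine (norm_sub_le _ _).trans ?_
    rw [Complex.norm_intCast]
    have h1 := hαb σ
    have h2 : 3 * M * (2 * 6 ^ n) * |(NumberField.discr K : ℝ)| ^ (1 / (2 * (((n + 1) / 2 : ℕ) : ℝ)))
      = 3 * (M * T) := by
      rw [hT]
      ring
    rw [h2]
    linarith

end Pool.Agent.W32.VD
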